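import Pool.Agent.RCV.Main

/-!
# MP_994c9a_an : rational maps with Julia set the sphere which are not conservative
-/

set_option autoImplicit false

open Filter Topology MeasureTheory

namespace Pool.Agent.Results.MP_994c9a_an.Dissipative

open RCV

/-- The three published theorems `BuffCheritat`, `McMullen` and `FatouSullivan` imply that not every
rational map whose Julia set is the sphere is conservative. -/
theorem result (h1 : BuffCheritat) (h2 : McMullen) (h3 : FatouSullivan) :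
    ¬ (∀ (p q : Polynomial ℂ), IsCoprime p q → q ≠ 0 → 2 ≤ max p.natDegree q.natDegree →
    ∀ f : OnePoint ℂ → OnePoint ℂ, Continuous f →
      (∀ z : ℂ, q.eval z ≠ 0 → f (z : OnePoint ℂ) = ((p.eval z / q.eval z : ℂ) : OnePoint ℂ)) →
      (∀ z : OnePoint ℂ, ∀ V ∈ 𝓝 z, ∃ w ∈ V,
        ¬ (∀ W ∈ 𝓝ˢ (Set.diagonal (OnePoint ℂ)),
            ∀ᶠ x in 𝓝 w, ∀ n : ℕ, ((f^[n]) w, (f^[n]) x) ∈ W)) →
      ∀ E : Set ℂ, MeasurableSet E →
        ∀ᵐ z ∂(volume : Measure ℂ), z ∈ E →
          ∃ n : ℕ, 1 ≤ n ∧ (f^[n]) (z : OnePoint ℂ) ∈ ((↑) : ℂ → OnePoint ℂ) '' E) := by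
  intro hQ
  obtain ⟨l, N, hl, hJ, hN, hne, hmaps, hnull⟩ := exists_fam h1 h2 h3
  have hf := fam_rational hl
  have hd := fam_degree hl
  refine hnull (hf.null_of_invariant (by rw [hd]; norm_num) hJ (Conservative.openRec ?_) hN hne
    hmaps)
  refine hQ _ _ hf.coprime hf.ne_zero (by rw [hd]) _ hf.cont hf.eq ?_
  intro z V hV
  by_contra hcon
  push Not at hcon
  have h4 : z ∈ Fatou (fam l) := ⟨V, hV, hcon⟩
  rw [hJ] at h4
  exact h4

end Pool.Agent.Results.MP_994c9a_an.Dissipative
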