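import Pool.Agent.RCV.Cons

/-!
# MP_994c9a_an : recurrence and dense orbits for rational maps with Julia set the sphere
-/

set_option autoImplicit false

open Filter Topology MeasureTheory

namespace Pool.Agent.Results.MP_994c9a_an.Recurrent

/-- Let `f = p / q` be a rational map of degree at least two whose Julia set is the sphere (the
iterates are equicontinuous on no open set). Almost every point is recurrent (is in its
omega-limit set) if and only if the omega-limit set of almost every point is the sphere, and if and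
only if all closed forward invariant sets, except the sphere, have measure zero. Conservative maps
(Poincaré recurrence for the Lebesgue measure) have these properties. -/
theorem result (p q : Polynomial ℂ) (hpq : IsCoprime p q) (hq : q ≠ 0)
    (hd : 2 ≤ max p.natDegree q.natDegree) (f : OnePoint ℂ → OnePoint ℂ) (hf : Continuous f)
    (hfe : ∀ z : ℂ, q.eval z ≠ 0 →
      f (z : OnePoint ℂ) = ((p.eval z / q.eval z : ℂ) : OnePoint ℂ))
    (hJ : ∀ z : OnePoint ℂ, ∀ V ∈ 𝓝 z, ∃ w ∈ V,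
      ¬ (∀ W ∈ 𝓝ˢ (Set.diagonal (OnePoint ℂ)),
          ∀ᶠ x in 𝓝 w, ∀ n : ℕ, ((f^[n]) w, (f^[n]) x) ∈ W)) :
    ((∀ᵐ z : ℂ ∂(volume : Measure ℂ),
        MapClusterPt (z : OnePoint ℂ) atTop fun n : ℕ => (f^[n]) (z : OnePoint ℂ)) ↔
      ∀ᵐ z : ℂ ∂(volume : Measure ℂ), ∀ y : OnePoint ℂ,
        MapClusterPt y atTop fun n : ℕ => (f^[n]) (z : OnePoint ℂ)) ∧
    ((∀ᵐ z : ℂ ∂(volume : Measure ℂ), ∀ y : OnePoint ℂ,
        MapClusterPt y atTop fun n : ℕ => (f^[n]) (z : OnePoint ℂ)) ↔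
      ∀ N : Set (OnePoint ℂ), IsClosed N → N ≠ Set.univ → Set.MapsTo f N N →
        (volume : Measure ℂ) {z : ℂ | (z : OnePoint ℂ) ∈ N} = 0) ∧
    ((∀ E : Set ℂ, MeasurableSet E → ∀ᵐ z ∂(volume : Measure ℂ), z ∈ E →
        ∃ n : ℕ, 1 ≤ n ∧ (f^[n]) (z : OnePoint ℂ) ∈ ((↑) : ℂ → OnePoint ℂ) '' E) →
      ∀ᵐ z : ℂ ∂(volume : Measure ℂ), ∀ y : OnePoint ℂ,
        MapClusterPt y atTop fun n : ℕ => (f^[n]) (z : OnePoint ℂ)) := by
  have h : RCV.IsRational p q f := ⟨hpq, hq, hf, hfe⟩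
  have hd1 : 1 ≤ max p.natDegree q.natDegree := le_trans (by norm_num) hd
  have hJ' : RCV.Fatou f = ∅ := by
    rw [Set.eq_empty_iff_forall_notMem]
    rintro z ⟨V, hV, hE⟩
    obtain ⟨w, hw, hw1⟩ := hJ z V hV
    exact hw1 (hE w hw)
  have h1 : RCV.OpenRec f → ∀ᵐ z : ℂ ∂(volume : Measure ℂ), ∀ y : OnePoint ℂ,
      MapClusterPt y atTop fun n : ℕ => (f^[n]) (z : OnePoint ℂ) := fun h2 =>
    h.ae_omega hd1 fun N hN hne hm => h.null_of_invariant hd1 hJ' h2 hN hne hm
  refine ⟨⟨fun h2 => h1 (RCV.openRec_of_recurrent h2), fun h2 => ?_⟩, ⟨fun h2 N hN hne hm => ?_,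
    fun h2 => h.ae_omega hd1 h2⟩, fun h2 => h1 (RCV.Conservative.openRec h2)⟩
  · filter_upwards [h2] with z hz
    exact hz z
  · refine h.null_of_invariant hd1 hJ' (RCV.openRec_of_recurrent ?_) hN hne hm
    filter_upwards [h2] with z hz
    exact hz z

end Pool.Agent.Results.MP_994c9a_an.Recurrent
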